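import Pool.Agent.Helper49.LT.StB

/-!
# Project LT (MP_b21509_co): module JET (second order Taylor polynomial of the chord height)
-/

set_option autoImplicit false

open MeasureTheory Set Filter Metric
open scoped Topology

namespace Pool.Agent.Helper42.LT

open Helper49.LT

/-- the space of the parameters -/
private abbrev X : Type := (ℂ × ℂ) × (ℝ × ℝ)

private def Ob (k : ℕ) (f : X → ℝ) : Prop := f =O[𝓝 (0 : X)] fun p => ‖p‖ ^ k

private theorem Ob.mono {k l : ℕ} {f : X → ℝ} (h : Ob k f) (hl : l ≤ k) : Ob l f := by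
  refine Asymptotics.IsBigO.trans h ?_
  refine Asymptotics.IsBigO.of_bound 1 ?_
  filter_upwards [Metric.ball_mem_nhds (0 : X) one_pos] with p hp
  have h1 : ‖p‖ ≤ 1 := (mem_ball_zero_iff.1 hp).le
  rw [one_mul, norm_pow, norm_pow, norm_norm]
  exact pow_le_pow_of_le_one (norm_nonneg _) h1 hl

private theorem Ob.add {k : ℕ} {f g : X → ℝ} (hf : Ob k f) (hg : Ob k g) :
    Ob k (fun p => f p + g p) := Asymptotics.IsBigO.add hf hg

private theorem Ob.sub {k : ℕ} {f g : X → ℝ} (hf : Ob k f) (hg : Ob k g) :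
    Ob k (fun p => f p - g p) := Asymptotics.IsBigO.sub hf hg

private theorem Ob.mul {k l : ℕ} {f g : X → ℝ} (hf : Ob k f) (hg : Ob l g) :
    Ob (k + l) (fun p => f p * g p) := by
  have h := Asymptotics.IsBigO.mul hf hg
  unfold Ob
  simpa only [pow_add] using h

private theorem Ob.cmul {k : ℕ} {f : X → ℝ} (hf : Ob k f) (c : ℝ) : Ob k (fun p => c * f p) :=
  Asymptotics.IsBigO.const_mul_left hf c

private theorem Ob.const (c : ℝ) : Ob 0 (fun _ => c) := by
  unfold Ob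
  simp only [pow_zero]
  exact Asymptotics.isBigO_const_const c one_ne_zero _

private theorem Ob.zero (k : ℕ) : Ob k (fun _ => 0) := Asymptotics.isBigO_zero _ _

private theorem Ob.abs {k : ℕ} {f : X → ℝ} (hf : Ob k f) : Ob k (fun p => |f p|) :=
  Asymptotics.IsBigO.abs_left hf

private theorem Ob.of_le {k : ℕ} {f g : X → ℝ} (hg : Ob k g) (C : ℝ)
    (h : ∀ᶠ p in 𝓝 (0 : X), |f p| ≤ C * |g p|) : Ob k f := by
  refine Asymptotics.IsBigO.trans (Asymptotics.IsBigO.of_bound C ?_) hg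
  filter_upwards [h] with p hp
  exact hp

private theorem Ob.norm : Ob 1 (fun p => ‖p‖) := by
  unfold Ob
  simp only [pow_one]
  exact Asymptotics.isBigO_refl _ _

private theorem Ob.small {f : X → ℝ} (hf : Ob 1 f) {c : ℝ} (hc : 0 < c) :
    ∀ᶠ p in 𝓝 (0 : X), |f p| ≤ c := by
  have h1 : Tendsto (fun p : X => ‖p‖ ^ 1) (𝓝 0) (𝓝 0) := by
    have : Tendsto (fun p : X => ‖p‖) (𝓝 0) (𝓝 ‖(0 : X)‖) := continuous_norm.tendsto _
    simpa using this
  have h2 : Tendsto f (𝓝 0) (𝓝 0) := hf.trans_tendsto h1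
  have h3 : Tendsto (fun p => |f p|) (𝓝 0) (𝓝 0) := by simpa using h2.abs
  filter_upwards [h3.eventually (gt_mem_nhds hc)] with p hp
  exact le_of_lt hp

/-- second order jets -/
private structure J (f : X → ℝ) (f0 : ℝ) (f1 f2 : X → ℝ) : Prop where
  o1 : Ob 1 f1
  o2 : Ob 2 f2
  o3 : Ob 3 (fun p => f p - (f0 + f1 p + f2 p))

private theorem J.add {f g : X → ℝ} {f0 g0 : ℝ} {f1 f2 g1 g2 : X → ℝ} (hf : J f f0 f1 f2)
    (hg : J g g0 g1 g2) :
    J (fun p => f p + g p) (f0 + g0) (fun p => f1 p + g1 p) (fun p => f2 p + g2 p) := by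
  refine ⟨hf.o1.add hg.o1, hf.o2.add hg.o2, ?_⟩
  have h := hf.o3.add hg.o3
  refine h.congr_left fun p => ?_
  ring

private theorem J.cmul {f : X → ℝ} {f0 : ℝ} {f1 f2 : X → ℝ} (hf : J f f0 f1 f2) (c : ℝ) :
    J (fun p => c * f p) (c * f0) (fun p => c * f1 p) (fun p => c * f2 p) := by
  refine ⟨hf.o1.cmul c, hf.o2.cmul c, ?_⟩
  have h := hf.o3.cmul c
  refine h.congr_left fun p => ?_
  ring

private theorem J.mul {f g : X → ℝ} {f0 g0 : ℝ} {f1 f2 g1 g2 : X → ℝ} (hf : J f f0 f1 f2)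
    (hg : J g g0 g1 g2) :
    J (fun p => f p * g p) (f0 * g0) (fun p => f0 * g1 p + f1 p * g0)
      (fun p => f0 * g2 p + f1 p * g1 p + f2 p * g0) := by
  have c1 : ∀ {k : ℕ} {h : X → ℝ} (c : ℝ), Ob k h → Ob k (fun p => h p * c) := by
    intro k h c hh
    refine (hh.cmul c).congr_left fun p => ?_
    ring
  refine ⟨(hg.o1.cmul f0).add (c1 g0 hf.o1),
    ((hg.o2.cmul f0).add (hf.o1.mul hg.o1)).add (c1 g0 hf.o2), ?_⟩
  have hF : Ob 0 (fun p => f0 + f1 p + f2 p) :=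
    ((Ob.const f0).add (hf.o1.mono (by norm_num))).add (hf.o2.mono (by norm_num))
  have hG : Ob 0 (fun p => g0 + g1 p + g2 p) :=
    ((Ob.const g0).add (hg.o1.mono (by norm_num))).add (hg.o2.mono (by norm_num))
  have e1 := hF.mul hg.o3
  have e2 := hf.o3.mul hG
  have e3 := (hf.o3.mul hg.o3).mono (l := 3) (by norm_num)
  have e4 := hf.o1.mul hg.o2
  have e5 := hf.o2.mul hg.o1
  have e6 := (hf.o2.mul hg.o2).mono (l := 3) (by norm_num)
  rw [Nat.zero_add] at e1
  refine (((((e1.add e2).add e3).add e4).add e5).add e6).congr_left fun p => ?_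
  ring

private theorem J.lin {f : X → ℝ} (hf : Ob 1 f) : J f 0 f (fun _ => 0) := by
  refine ⟨hf, Ob.zero 2, ?_⟩
  refine (Ob.zero 3).congr_left fun p => ?_
  ring

private theorem J.const (c : ℝ) : J (fun _ => c) c (fun _ => 0) (fun _ => 0) := by
  refine ⟨Ob.zero 1, Ob.zero 2, ?_⟩
  refine (Ob.zero 3).congr_left fun p => ?_
  ring

private theorem J.cos {δ : X → ℝ} (hδ : Ob 1 δ) :
    J (fun p => Real.cos (δ p)) 1 (fun _ => 0) (fun p => -(δ p * δ p) / 2) := by
  have h2 : Ob 2 (fun p => δ p * δ p) := hδ.mul hδ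
  refine ⟨Ob.zero 1, ?_, ?_⟩
  · refine (h2.cmul (-1 / 2)).congr_left fun p => ?_
    ring
  · have h4 : Ob 3 (fun p => δ p * δ p * (δ p * δ p)) := (h2.mul h2).mono (by norm_num)
    refine Ob.of_le h4 1 ?_
    filter_upwards [hδ.small one_pos] with p hp
    have h := Real.cos_bound hp
    have h5 : |δ p| ^ 4 = |δ p * δ p * (δ p * δ p)| := by
      rw [abs_mul, abs_mul]
      ring
    rw [h5] at h
    have h6 : Real.cos (δ p) - (1 + 0 + -(δ p * δ p) / 2) =
        Real.cos (δ p) - (1 - δ p ^ 2 / 2) := by ring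
    rw [h6]
    refine h.trans ?_
    have := abs_nonneg (δ p * δ p * (δ p * δ p))
    nlinarith

private theorem J.sin {δ : X → ℝ} (hδ : Ob 1 δ) :
    J (fun p => Real.sin (δ p)) 0 δ (fun _ => 0) := by
  have h2 : Ob 2 (fun p => δ p * δ p) := hδ.mul hδ
  refine ⟨hδ, Ob.zero 2, ?_⟩
  have h3 : Ob 3 (fun p => δ p * (δ p * δ p)) := hδ.mul h2
  refine Ob.of_le h3 1 ?_
  filter_upwards [hδ.small one_pos] with p hp
  have h := Real.sin_bound hp
  have h5 : |δ p * (δ p * δ p)| = |δ p| ^ 3 := by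
    rw [abs_mul, abs_mul]
    ring
  have h7 : |δ p| ^ 5 ≤ |δ p| ^ 3 := pow_le_pow_of_le_one (abs_nonneg _) hp (by norm_num)
  have h6 : Real.sin (δ p) - (0 + δ p + 0) =
      (Real.sin (δ p) - (δ p - δ p ^ 3 / 6)) + -(δ p ^ 3 / 6) := by ring
  have h8 : |-(δ p ^ 3 / 6)| = |δ p| ^ 3 / 6 := by
    rw [abs_neg, abs_div, abs_pow]
    norm_num
  rw [h6, h5]
  refine (abs_add_le _ _).trans ?_
  rw [h8]
  have := pow_nonneg (abs_nonneg (δ p)) 3
  nlinarith

private theorem J.fin {f t : X → ℝ} {f0 : ℝ} {f1 f2 : X → ℝ} (hf : J f f0 f1 f2)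
    (h : ∀ p, f0 + f1 p + f2 p = t p) : Ob 3 (fun p => f p - t p) :=
  hf.o3.congr_left fun p => by rw [h]

private theorem J.fin2 {f : X → ℝ} {f0 : ℝ} {f1 f2 : X → ℝ} (hf : J f f0 f1 f2)
    (h : ∀ p, f0 + f1 p = 0) : Ob 2 f := by
  refine ((hf.o3.mono (l := 2) (by norm_num)).add hf.o2).congr_left fun p => ?_
  have := h p
  linarith

/-! ### coordinates -/

private theorem ob_of {f : X → ℝ} (h : ∀ p, |f p| ≤ ‖p‖) : Ob 1 f := by
  refine Ob.of_le Ob.norm 1 (Eventually.of_forall fun p => ?_)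
  rw [abs_norm, one_mul]
  exact h p

private theorem ob_k3 : Ob 1 (fun p => k3 p.1) :=
  ob_of fun p => (abs_k3 p.1).trans ((fst_le p.1).trans (norm_fst_le p))

private theorem ob_s3 : Ob 1 (fun p => s3 p.1) :=
  ob_of fun p => (abs_s3 p.1).trans ((fst_le p.1).trans (norm_fst_le p))

private theorem ob_k5 : Ob 1 (fun p => k5 p.1) :=
  ob_of fun p => (abs_k5 p.1).trans ((snd_le p.1).trans (norm_fst_le p))

private theorem ob_s5 : Ob 1 (fun p => s5 p.1) :=
  ob_of fun p => (abs_s5 p.1).trans ((snd_le p.1).trans (norm_fst_le p))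

private theorem abs_x (p : X) : |p.2.1| ≤ ‖p‖ :=
  (norm_fst_le p.2).trans (norm_snd_le p)

private theorem abs_y (p : X) : |p.2.2| ≤ ‖p‖ :=
  (norm_snd_le p.2).trans (norm_snd_le p)

private theorem ob_x : Ob 1 (fun p => p.2.1) := ob_of abs_x

private theorem ob_y : Ob 1 (fun p => p.2.2) := ob_of abs_y

private theorem ob_lsp : Ob 1 lsp := by
  have h := ((((ob_k3.cmul (Real.sqrt 3)).sub ob_s3).sub (ob_k5.cmul (Real.sqrt 3))).add
    ob_s5).sub ((ob_x.add (ob_y.cmul 2)).cmul (1 / Real.sqrt 3))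
  refine h.congr_left fun p => ?_
  unfold lsp
  ring

private theorem ob_lsm : Ob 1 lsm := by
  have h := ((((ob_k3.cmul (-Real.sqrt 3)).sub ob_s3).add (ob_k5.cmul (Real.sqrt 3))).add
    ob_s5).add (((ob_x.cmul 2).add ob_y).cmul (1 / Real.sqrt 3))
  refine h.congr_left fun p => ?_
  unfold lsm
  ring

/-! ### the curve -/

private theorem zre (v : ℂ × ℂ) (s : ℝ) : (zh v s).re = Real.cos s +
    (k3 v * Real.cos (2 * s) + (-1) * (s3 v * Real.sin (2 * s))) +
    (k5 v * Real.cos (4 * s) + (-1) * (s5 v * Real.sin (4 * s))) := by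
  have h2 : Real.cos (-2 * s) = Real.cos (2 * s) := by
    rw [neg_mul, Real.cos_neg]
  have h3 : Real.sin (-2 * s) = -Real.sin (2 * s) := by
    rw [neg_mul, Real.sin_neg]
  have h4 : Real.cos (-4 * s) = Real.cos (4 * s) := by
    rw [neg_mul, Real.cos_neg]
  have h5 : Real.sin (-4 * s) = -Real.sin (4 * s) := by
    rw [neg_mul, Real.sin_neg]
  unfold zh k3 s3 k5 s5
  rw [Complex.add_re, Complex.add_re, Complex.mul_re, Complex.mul_re, ee_re, ee_re, ee_re, ee_im,
    ee_im, h2, h3, h4, h5]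
  ring

private theorem zim (v : ℂ × ℂ) (s : ℝ) : (zh v s).im = Real.sin s +
    (-1) * (k3 v * Real.sin (2 * s) + s3 v * Real.cos (2 * s)) +
    (-1) * (k5 v * Real.sin (4 * s) + s5 v * Real.cos (4 * s)) := by
  have h2 : Real.cos (-2 * s) = Real.cos (2 * s) := by
    rw [neg_mul, Real.cos_neg]
  have h3 : Real.sin (-2 * s) = -Real.sin (2 * s) := by
    rw [neg_mul, Real.sin_neg]
  have h4 : Real.cos (-4 * s) = Real.cos (4 * s) := by
    rw [neg_mul, Real.cos_neg]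
  have h5 : Real.sin (-4 * s) = -Real.sin (4 * s) := by
    rw [neg_mul, Real.sin_neg]
  unfold zh k3 s3 k5 s5
  rw [Complex.add_im, Complex.add_im, Complex.mul_im, Complex.mul_im, ee_re, ee_re, ee_im, ee_im,
    ee_im, h2, h3, h4, h5]
  ring

/-- the jets of `cos` and `sin` at a shifted point -/
private theorem J.cosS {δ : X → ℝ} (hδ : Ob 1 δ) (θ n : ℝ) :
    J (fun p => Real.cos (n * (θ + δ p))) (Real.cos (n * θ))
      (fun p => -(Real.sin (n * θ)) * (n * δ p))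
      (fun p => Real.cos (n * θ) * (-((n * δ p) * (n * δ p)) / 2)) := by
  have h1 := ((J.cos (hδ.cmul n)).cmul (Real.cos (n * θ))).add
    ((J.sin (hδ.cmul n)).cmul (-(Real.sin (n * θ))))
  refine ⟨(hδ.cmul n).cmul _, ?_, ?_⟩
  · refine h1.o2.congr_left fun p => ?_
    ring
  · refine h1.o3.congr_left fun p => ?_
    rw [mul_add, Real.cos_add]
    ring

private theorem J.sinS {δ : X → ℝ} (hδ : Ob 1 δ) (θ n : ℝ) :
    J (fun p => Real.sin (n * (θ + δ p))) (Real.sin (n * θ))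
      (fun p => Real.cos (n * θ) * (n * δ p))
      (fun p => Real.sin (n * θ) * (-((n * δ p) * (n * δ p)) / 2)) := by
  have h1 := ((J.cos (hδ.cmul n)).cmul (Real.sin (n * θ))).add
    ((J.sin (hδ.cmul n)).cmul (Real.cos (n * θ)))
  refine ⟨(hδ.cmul n).cmul _, ?_, ?_⟩
  · refine h1.o2.congr_left fun p => ?_
    ring
  · refine h1.o3.congr_left fun p => ?_
    rw [mul_add, Real.sin_add]
    ring

private theorem Jre {δ x : X → ℝ} (hδ : Ob 1 δ) (hx : Ob 1 x) (θ : ℝ) :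
    ∃ f1 f2 : X → ℝ, J (fun p => (1 + x p) * (zh p.1 (θ + δ p)).re) (Real.cos θ) f1 f2 ∧
      (∀ p, f1 p = Real.cos θ * x p - Real.sin θ * δ p +
        (k3 p.1 * Real.cos (2 * θ) - s3 p.1 * Real.sin (2 * θ)) +
        (k5 p.1 * Real.cos (4 * θ) - s5 p.1 * Real.sin (4 * θ))) ∧
      (∀ p, f2 p = -(Real.cos θ * (δ p * δ p) / 2) +
        (k3 p.1 * (-(Real.sin (2 * θ)) * (2 * δ p)) - s3 p.1 * (Real.cos (2 * θ) * (2 * δ p))) +
        (k5 p.1 * (-(Real.sin (4 * θ)) * (4 * δ p)) - s5 p.1 * (Real.cos (4 * θ) * (4 * δ p))) +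
        x p * (- Real.sin θ * δ p +
        (k3 p.1 * Real.cos (2 * θ) - s3 p.1 * Real.sin (2 * θ)) +
        (k5 p.1 * Real.cos (4 * θ) - s5 p.1 * Real.sin (4 * θ)))) := by
  have h := ((J.const 1).add (J.lin hx)).mul
    (((J.cosS hδ θ 1).add (((J.lin ob_k3).mul (J.cosS hδ θ 2)).add
      (((J.lin ob_s3).mul (J.sinS hδ θ 2)).cmul (-1)))).add
      (((J.lin ob_k5).mul (J.cosS hδ θ 4)).add (((J.lin ob_s5).mul (J.sinS hδ θ 4)).cmul (-1))))
  refine ⟨_, _, ⟨h.o1, h.o2, h.o3.congr_left fun p => ?_⟩, ?_, ?_⟩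
  · rw [zre]
    simp only [one_mul]
    ring
  · intro p
    simp only [one_mul]
    ring
  · intro p
    simp only [one_mul]
    ring

private theorem Jim {δ x : X → ℝ} (hδ : Ob 1 δ) (hx : Ob 1 x) (θ : ℝ) :
    ∃ f1 f2 : X → ℝ, J (fun p => (1 + x p) * (zh p.1 (θ + δ p)).im) (Real.sin θ) f1 f2 ∧
      (∀ p, f1 p = Real.sin θ * x p + Real.cos θ * δ p -
        (k3 p.1 * Real.sin (2 * θ) + s3 p.1 * Real.cos (2 * θ)) -
        (k5 p.1 * Real.sin (4 * θ) + s5 p.1 * Real.cos (4 * θ))) ∧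
      (∀ p, f2 p = -(Real.sin θ * (δ p * δ p) / 2) -
        (k3 p.1 * (Real.cos (2 * θ) * (2 * δ p)) - s3 p.1 * (Real.sin (2 * θ) * (2 * δ p))) -
        (k5 p.1 * (Real.cos (4 * θ) * (4 * δ p)) - s5 p.1 * (Real.sin (4 * θ) * (4 * δ p))) +
        x p * (Real.cos θ * δ p -
        (k3 p.1 * Real.sin (2 * θ) + s3 p.1 * Real.cos (2 * θ)) -
        (k5 p.1 * Real.sin (4 * θ) + s5 p.1 * Real.cos (4 * θ)))) := by
  have h := ((J.const 1).add (J.lin hx)).mul
    (((J.sinS hδ θ 1).add ((((J.lin ob_k3).mul (J.sinS hδ θ 2)).add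
      ((J.lin ob_s3).mul (J.cosS hδ θ 2))).cmul (-1))).add
      ((((J.lin ob_k5).mul (J.sinS hδ θ 4)).add ((J.lin ob_s5).mul (J.cosS hδ θ 4))).cmul (-1)))
  refine ⟨_, _, ⟨h.o1, h.o2, h.o3.congr_left fun p => ?_⟩, ?_, ?_⟩
  · rw [zim]
    simp only [one_mul]
    ring
  · intro p
    simp only [one_mul]
    ring
  · intro p
    simp only [one_mul]
    ring

private theorem trig :
    Real.cos (Real.pi / 3) = 1 / 2 ∧ Real.sin (Real.pi / 3) = Real.sqrt 3 / 2 ∧
    Real.cos (2 * (Real.pi / 3)) = -1 / 2 ∧ Real.sin (2 * (Real.pi / 3)) = Real.sqrt 3 / 2 ∧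
    Real.cos (4 * (Real.pi / 3)) = -1 / 2 ∧ Real.sin (4 * (Real.pi / 3)) = -(Real.sqrt 3 / 2) := by
  have h1 := Real.cos_pi_div_three
  have h2 := Real.sin_pi_div_three
  have hq : Real.sqrt 3 ^ 2 = 3 := Real.sq_sqrt (by norm_num)
  have h3 : Real.cos (2 * (Real.pi / 3)) = -1 / 2 := by
    rw [Real.cos_two_mul, h1]
    norm_num
  have h4 : Real.sin (2 * (Real.pi / 3)) = Real.sqrt 3 / 2 := by
    rw [Real.sin_two_mul, h1, h2]
    ring
  have h5 : Real.cos (4 * (Real.pi / 3)) = -1 / 2 := by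
    have : 4 * (Real.pi / 3) = 2 * (2 * (Real.pi / 3)) := by ring
    rw [this, Real.cos_two_mul, h3]
    norm_num
  have h6 : Real.sin (4 * (Real.pi / 3)) = -(Real.sqrt 3 / 2) := by
    have : 4 * (Real.pi / 3) = 2 * (2 * (Real.pi / 3)) := by ring
    rw [this, Real.sin_two_mul, h3, h4]
    ring
  exact ⟨h1, h2, h3, h4, h5, h6⟩

private theorem trigm :
    Real.cos (-(Real.pi / 3)) = 1 / 2 ∧ Real.sin (-(Real.pi / 3)) = -(Real.sqrt 3 / 2) ∧
    Real.cos (2 * -(Real.pi / 3)) = -1 / 2 ∧ Real.sin (2 * -(Real.pi / 3)) = -(Real.sqrt 3 / 2) ∧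
    Real.cos (4 * -(Real.pi / 3)) = -1 / 2 ∧ Real.sin (4 * -(Real.pi / 3)) = Real.sqrt 3 / 2 := by
  obtain ⟨h1, h2, h3, h4, h5, h6⟩ := trig
  refine ⟨?_, ?_, ?_, ?_, ?_, ?_⟩
  · rw [Real.cos_neg, h1]
  · rw [Real.sin_neg, h2]
  · rw [mul_neg, Real.cos_neg, h3]
  · rw [mul_neg, Real.sin_neg, h4]
  · rw [mul_neg, Real.cos_neg, h5]
  · rw [mul_neg, Real.sin_neg, h6, neg_neg]

/-- the point at the end of the chord, and the other one -/
private noncomputable def AS (p : X) : ℂ := ((1 + p.2.1 : ℝ) : ℂ) * zh p.1 (Real.pi / 3 + lsp p)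
private noncomputable def BS (p : X) : ℂ := ((1 + p.2.2 : ℝ) : ℂ) * zh p.1 (-(Real.pi / 3) + lsm p)

private theorem AS_re (p : X) : (AS p).re = (1 + p.2.1) * (zh p.1 (Real.pi / 3 + lsp p)).re := by
  unfold AS; rw [Complex.re_ofReal_mul]
private theorem AS_im (p : X) : (AS p).im = (1 + p.2.1) * (zh p.1 (Real.pi / 3 + lsp p)).im := by
  unfold AS; rw [Complex.im_ofReal_mul]
private theorem BS_re (p : X) : (BS p).re = (1 + p.2.2) * (zh p.1 (-(Real.pi / 3) + lsm p)).re := by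
  unfold BS; rw [Complex.re_ofReal_mul]
private theorem BS_im (p : X) : (BS p).im = (1 + p.2.2) * (zh p.1 (-(Real.pi / 3) + lsm p)).im := by
  unfold BS; rw [Complex.im_ofReal_mul]

private theorem divq (x : ℝ) : x / Real.sqrt 3 = x * Real.sqrt 3 / 3 := by
  have hq : Real.sqrt 3 ^ 2 = 3 := Real.sq_sqrt (by norm_num)
  have h0 : Real.sqrt 3 ≠ 0 := by
    intro h
    rw [h] at hq
    norm_num at hq
  field_simp
  rw [hq]

/-- step (1) and (4) -/
private theorem steps : Ob 2 (fun p => (AS p).re - (BS p).re) ∧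
    Ob 2 (fun p => (AS p).im - (BS p).im - Real.sqrt 3) ∧
    Ob 3 (fun p => ((AS p).re + (BS p).re) / 2 +
      Real.sqrt 3 / 2 * ((AS p).im - (BS p).im - Real.sqrt 3) - tcc p) := by
  obtain ⟨h1, h2, h3, h4, h5, h6⟩ := trig
  obtain ⟨g1, g2, g3, g4, g5, g6⟩ := trigm
  obtain ⟨a1, a2, hA, ha1, ha2⟩ := Jre ob_lsp ob_x (Real.pi / 3)
  obtain ⟨b1, b2, hB, hb1, hb2⟩ := Jre ob_lsm ob_y (-(Real.pi / 3))
  obtain ⟨c1, c2, hC, hc1, hc2⟩ := Jim ob_lsp ob_x (Real.pi / 3)
  obtain ⟨d1, d2, hD, hd1, hd2⟩ := Jim ob_lsm ob_y (-(Real.pi / 3))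
  rw [h1, h2, h3, h4, h5, h6] at ha1 ha2 hc1 hc2
  rw [g1, g2, g3, g4, g5, g6] at hb1 hb2 hd1 hd2
  rw [h1] at hA
  rw [h2] at hC
  rw [g1] at hB
  rw [g2] at hD
  have hq : Real.sqrt 3 ^ 2 = 3 := Real.sq_sqrt (by norm_num)
  refine ⟨?_, ?_, ?_⟩
  · have h := (hA.add (hB.cmul (-1))).fin2 (by
      intro p
      rw [ha1, hb1]
      unfold lsp lsm
      rw [divq, divq]
      generalize Real.sqrt 3 = q at *
      ring_nf
      simp only [hq]
      ring)
    refine h.congr_left fun p => ?_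
    rw [AS_re, BS_re]
    ring
  · have h := ((hC.add (hD.cmul (-1))).add (J.const (-Real.sqrt 3))).fin2 (by
      intro p
      rw [hc1, hd1]
      unfold lsp lsm
      rw [divq, divq]
      generalize Real.sqrt 3 = q at *
      ring_nf
      try simp only [hq]
      try ring)
    refine h.congr_left fun p => ?_
    rw [AS_im, BS_im]
    ring
  · have h := (((hA.add hB).cmul (1 / 2)).add
      (((hC.add (hD.cmul (-1))).add (J.const (-Real.sqrt 3))).cmul (Real.sqrt 3 / 2))).fin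
      (t := tcc) (by
        intro p
        rw [ha1, hb1, hc1, hd1, ha2, hb2, hc2, hd2]
        unfold lsp lsm tcc
        rw [divq, divq]
        generalize Real.sqrt 3 = q at *
        have hq3 : q ^ 3 = 3 * q := by
          calc q ^ 3 = q ^ 2 * q := by ring
            _ = 3 * q := by rw [hq]
        have hq4 : q ^ 4 = 9 := by
          calc q ^ 4 = (q ^ 2) ^ 2 := by ring
            _ = 9 := by rw [hq]; norm_num
        ring_nf
        try simp only [hq, hq3, hq4]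
        try ring)
    refine h.congr_left fun p => ?_
    rw [AS_re, BS_re, AS_im, BS_im]
    ring

/-! ### mean value estimates -/

private theorem ee_lip (s c : ℝ) : ‖ee s - ee c‖ ≤ |s - c| := by
  have h := convex_univ.norm_image_sub_le_of_norm_hasDerivWithin_le (f := ee)
    (f' := fun t => Complex.I * ee t) (C := 1) (s := (univ : Set ℝ))
    (fun t _ => (hasDerivAt_ee' t).hasDerivWithinAt)
    (fun t _ => by rw [norm_mul, Complex.norm_I, norm_ee, one_mul]) (mem_univ c) (mem_univ s)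
  rw [one_mul, Real.norm_eq_abs] at h
  exact h

private theorem mv (v : ℂ × ℂ) (x e c κ s S : ℝ) (hv : ‖v‖ ≤ e) (hx : |x| ≤ e) (he : e ≤ 1 / 100)
    (hs : |s - c| ≤ κ) (hS : |S - c| ≤ κ) :
    ‖(((1 + x : ℝ) : ℂ) * zh v s - ((1 + x : ℝ) : ℂ) * zh v S) - ((s - S : ℝ) : ℂ) *
      (Complex.I * ee c)‖ ≤ (8 * e + κ) * |s - S| := by
  have he0 : 0 ≤ e := (norm_nonneg v).trans hv
  have hd : ∀ t : ℝ, HasDerivAt (fun t : ℝ => ((1 + x : ℝ) : ℂ) * zh v t - (t : ℂ) *
      (Complex.I * ee c)) (((1 + x : ℝ) : ℂ) * zd v t - Complex.I * ee c) t := by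
    intro t
    have h1 := (hasDerivAt_zh v t).const_mul (((1 + x : ℝ) : ℂ))
    have h2 : HasDerivAt (fun t : ℝ => (t : ℂ) * (Complex.I * ee c)) (Complex.I * ee c) t := by
      have := (hasDerivAt_id t).ofReal_comp.mul_const (Complex.I * ee c)
      simpa using this
    exact h1.sub h2
  have hb : ∀ t ∈ Icc (c - κ) (c + κ), ‖((1 + x : ℝ) : ℂ) * zd v t - Complex.I * ee c‖ ≤
      8 * e + κ := by
    intro t ht
    have h1 : |t - c| ≤ κ := by
      rw [abs_le]
      constructor <;> linarith [ht.1, ht.2]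
    have h2 : ((1 + x : ℝ) : ℂ) * zd v t - Complex.I * ee c =
        (x : ℂ) * zd v t + (zd v t - Complex.I * ee t) + Complex.I * (ee t - ee c) := by
      push_cast
      ring
    have h3 := zd_sub_ee v t
    have h4 : ‖zd v t‖ ≤ 1 + 6 * ‖v‖ := by
      have := norm_add_le (zd v t - Complex.I * ee t) (Complex.I * ee t)
      rw [sub_add_cancel, norm_mul, Complex.norm_I, norm_ee, one_mul] at this
      linarith
    rw [h2]
    refine (norm_add_le _ _).trans ?_
    have h5 : ‖(x : ℂ) * zd v t + (zd v t - Complex.I * ee t)‖ ≤ e * (1 + 6 * e) + 6 * e := by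
      refine (norm_add_le _ _).trans ?_
      rw [norm_mul, Complex.norm_real, Real.norm_eq_abs]
      have h6 : |x| * ‖zd v t‖ ≤ e * (1 + 6 * e) := by
        refine mul_le_mul hx (h4.trans (by linarith)) (norm_nonneg _) he0
      linarith
    have h7 : ‖Complex.I * (ee t - ee c)‖ ≤ κ := by
      rw [norm_mul, Complex.norm_I, one_mul]
      exact (ee_lip t c).trans h1
    nlinarith
  have hs' : s ∈ Icc (c - κ) (c + κ) := by
    rw [abs_le] at hs
    constructor <;> linarith [hs.1, hs.2]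
  have hS' : S ∈ Icc (c - κ) (c + κ) := by
    rw [abs_le] at hS
    constructor <;> linarith [hS.1, hS.2]
  have h := (convex_Icc (c - κ) (c + κ)).norm_image_sub_le_of_norm_hasDerivWithin_le
    (fun t _ => (hd t).hasDerivWithinAt) hb hS' hs'
  rw [Real.norm_eq_abs] at h
  refine le_trans (le_of_eq ?_) h
  congr 1
  push_cast
  ring

private theorem low (α β : ℝ) :
    (|α| + |β|) / 2 ≤ ‖(α : ℂ) * (Complex.I * ee (Real.pi / 3)) -
      (β : ℂ) * (Complex.I * ee (-(Real.pi / 3)))‖ := by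
  obtain ⟨h1, h2, -, -, -, -⟩ := trig
  obtain ⟨g1, g2, -, -, -, -⟩ := trigm
  have hq : Real.sqrt 3 ^ 2 = 3 := Real.sq_sqrt (by norm_num)
  have hsq : ‖(α : ℂ) * (Complex.I * ee (Real.pi / 3)) -
      (β : ℂ) * (Complex.I * ee (-(Real.pi / 3)))‖ ^ 2 = α ^ 2 + β ^ 2 + α * β := by
    rw [← Complex.normSq_eq_norm_sq, Complex.normSq_apply]
    simp only [Complex.sub_re, Complex.sub_im, Complex.mul_re, Complex.mul_im, Complex.ofReal_re,
      Complex.ofReal_im, Complex.I_re, Complex.I_im, ee_re, ee_im, h1, h2, g1, g2]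
    generalize Real.sqrt 3 = q at *
    ring_nf
    rw [hq]
    ring
  have h3 : ((|α| + |β|) / 2) ^ 2 ≤ ‖(α : ℂ) * (Complex.I * ee (Real.pi / 3)) -
      (β : ℂ) * (Complex.I * ee (-(Real.pi / 3)))‖ ^ 2 := by
    rw [hsq]
    have e1 := sq_abs α
    have e2 := sq_abs β
    have e3 : -(|α| * |β|) ≤ α * β := by
      rw [← abs_mul]
      exact neg_abs_le _
    nlinarith [sq_nonneg (|α| - |β|)]
  exact le_of_sq_le_sq h3 (norm_nonneg _)

theorem hJET : StJet := by
  intro r sp sm hC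
  -- the two deviations
  obtain ⟨α, hα⟩ : ∃ α : X → ℝ, α = fun p => sp p - (Real.pi / 3 + lsp p) := ⟨_, rfl⟩
  obtain ⟨β, hβ⟩ : ∃ β : X → ℝ, β = fun p => sm p - (-(Real.pi / 3) + lsm p) := ⟨_, rfl⟩
  obtain ⟨st1, st2, st4⟩ := steps
  have ev_ball : ∀ᶠ p in 𝓝 (0 : X), p ∈ ball (0 : X) r := Metric.ball_mem_nhds _ hC.pos
  have ev_n : ∀ᶠ p in 𝓝 (0 : X), ‖p‖ ≤ 1 / 100 := by
    filter_upwards [Ob.norm.small (c := 1 / 100) (by norm_num)] with p hp
    rwa [abs_norm] at hp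
  have ev_l := ob_lsp.small (c := 1 / 10) (by norm_num)
  have ev_m := ob_lsm.small (c := 1 / 10) (by norm_num)
  -- step (2)
  have h2 : ∀ᶠ p in 𝓝 (0 : X), |α p| + |β p| ≤ 4 * (|(AS p).re - (BS p).re| +
      |(AS p).im - (BS p).im - Real.sqrt 3|) := by
    filter_upwards [ev_ball, ev_n, ev_l, ev_m] with p hp hn hl hm
    obtain ⟨n1, n2⟩ := hC.near p hp
    have heq := hC.eqn p hp
    unfold ChEq at heq
    have hv : ‖p.1‖ ≤ 1 / 100 := (norm_fst_le p).trans hn
    have hx : |p.2.1| ≤ 1 / 100 := (abs_x p).trans hn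
    have hy : |p.2.2| ≤ 1 / 100 := (abs_y p).trans hn
    have m1 := mv p.1 p.2.1 (1 / 100) (Real.pi / 3) (1 / 10) (sp p) (Real.pi / 3 + lsp p) hv hx
      le_rfl n1 (by rwa [add_sub_cancel_left])
    have m2 := mv p.1 p.2.2 (1 / 100) (-(Real.pi / 3)) (1 / 10) (sm p)
      (-(Real.pi / 3) + lsm p) hv hy le_rfl (by rwa [sub_neg_eq_add]) (by rwa [add_sub_cancel_left])
    have hα1 : sp p - (Real.pi / 3 + lsp p) = α p := by rw [hα]
    have hβ1 : sm p - (-(Real.pi / 3) + lsm p) = β p := by rw [hβ]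
    rw [hα1] at m1
    rw [hβ1] at m2
    have m3 := low (α p) (β p)
    have m4 : (α p : ℂ) * (Complex.I * ee (Real.pi / 3)) -
        (β p : ℂ) * (Complex.I * ee (-(Real.pi / 3))) =
        -((((1 + p.2.1 : ℝ) : ℂ) * zh p.1 (sp p) -
          ((1 + p.2.1 : ℝ) : ℂ) * zh p.1 (Real.pi / 3 + lsp p)) - (α p : ℂ) *
          (Complex.I * ee (Real.pi / 3))) +
        ((((1 + p.2.2 : ℝ) : ℂ) * zh p.1 (sm p) -
          ((1 + p.2.2 : ℝ) : ℂ) * zh p.1 (-(Real.pi / 3) + lsm p)) - (β p : ℂ) *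
          (Complex.I * ee (-(Real.pi / 3)))) +
        -((AS p - BS p) - ((Real.sqrt 3 : ℝ) : ℂ) * Complex.I) := by
      rw [← heq]
      unfold AS BS
      ring
    have m5 : ‖(AS p - BS p) - ((Real.sqrt 3 : ℝ) : ℂ) * Complex.I‖ ≤
        |(AS p).re - (BS p).re| + |(AS p).im - (BS p).im - Real.sqrt 3| := by
      refine (Complex.norm_le_abs_re_add_abs_im _).trans (le_of_eq ?_)
      congr 1
      · congr 1
        simp
      · congr 1
        simp
    rw [m4] at m3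
    have m6 := (norm_add_le _ _).trans (add_le_add_left (norm_add_le
      (-((((1 + p.2.1 : ℝ) : ℂ) * zh p.1 (sp p) -
          ((1 + p.2.1 : ℝ) : ℂ) * zh p.1 (Real.pi / 3 + lsp p)) - (α p : ℂ) *
          (Complex.I * ee (Real.pi / 3))))
        ((((1 + p.2.2 : ℝ) : ℂ) * zh p.1 (sm p) -
          ((1 + p.2.2 : ℝ) : ℂ) * zh p.1 (-(Real.pi / 3) + lsm p)) - (β p : ℂ) *
          (Complex.I * ee (-(Real.pi / 3)))))
      ‖-((AS p - BS p) - ((Real.sqrt 3 : ℝ) : ℂ) * Complex.I)‖)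
    rw [norm_neg, norm_neg] at m6
    have a1 := abs_nonneg (α p)
    have a2 := abs_nonneg (β p)
    linarith
  have hg : Ob 2 (fun p => 4 * (|(AS p).re - (BS p).re| +
      |(AS p).im - (BS p).im - Real.sqrt 3|)) := (st1.abs.add st2.abs).cmul 4
  have oα : Ob 2 α := by
    refine Ob.of_le hg 1 ?_
    filter_upwards [h2] with p hp
    have := abs_nonneg (β p)
    rw [one_mul]
    exact le_trans (by linarith) (le_abs_self _)
  have oβ : Ob 2 β := by
    refine Ob.of_le hg 1 ?_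
    filter_upwards [h2] with p hp
    have := abs_nonneg (α p)
    rw [one_mul]
    exact le_trans (by linarith) (le_abs_self _)
  -- step (3)
  have h3 : ∀ᶠ p in 𝓝 (0 : X), |cc sp p - (((AS p).re + (BS p).re) / 2 +
      Real.sqrt 3 / 2 * ((AS p).im - (BS p).im - Real.sqrt 3))| ≤
      2 * ((8 * ‖p‖ + (|lsp p| + |α p|)) * |α p| + (8 * ‖p‖ + (|lsm p| + |β p|)) * |β p|) := by
    filter_upwards [ev_ball, ev_n] with p hp hn
    have heq := hC.eqn p hp
    unfold ChEq at heq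
    have hα1 : sp p - (Real.pi / 3 + lsp p) = α p := by rw [hα]
    have hβ1 : sm p - (-(Real.pi / 3) + lsm p) = β p := by rw [hβ]
    have k1 : |sp p - Real.pi / 3| ≤ |lsp p| + |α p| := by
      have : sp p - Real.pi / 3 = lsp p + α p := by rw [← hα1]; ring
      rw [this]
      exact abs_add_le _ _
    have k2 : |sm p - -(Real.pi / 3)| ≤ |lsm p| + |β p| := by
      have : sm p - -(Real.pi / 3) = lsm p + β p := by rw [← hβ1]; ring
      rw [this]
      exact abs_add_le _ _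
    have m1 := mv p.1 p.2.1 ‖p‖ (Real.pi / 3) (|lsp p| + |α p|) (sp p) (Real.pi / 3 + lsp p)
      (norm_fst_le p) (abs_x p) hn k1 (by
        rw [add_sub_cancel_left]
        linarith [abs_nonneg (α p)])
    have m2 := mv p.1 p.2.2 ‖p‖ (-(Real.pi / 3)) (|lsm p| + |β p|) (sm p)
      (-(Real.pi / 3) + lsm p) (norm_fst_le p) (abs_y p) hn k2 (by
        rw [add_sub_cancel_left]
        linarith [abs_nonneg (β p)])
    rw [hα1] at m1
    rw [hβ1] at m2
    obtain ⟨RA, hRA⟩ : ∃ RA : ℂ, RA = (((1 + p.2.1 : ℝ) : ℂ) * zh p.1 (sp p) -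
          ((1 + p.2.1 : ℝ) : ℂ) * zh p.1 (Real.pi / 3 + lsp p)) - (α p : ℂ) *
          (Complex.I * ee (Real.pi / 3)) := ⟨_, rfl⟩
    obtain ⟨RB, hRB⟩ : ∃ RB : ℂ, RB = (((1 + p.2.2 : ℝ) : ℂ) * zh p.1 (sm p) -
          ((1 + p.2.2 : ℝ) : ℂ) * zh p.1 (-(Real.pi / 3) + lsm p)) - (β p : ℂ) *
          (Complex.I * ee (-(Real.pi / 3))) := ⟨_, rfl⟩
    rw [← hRA] at m1
    rw [← hRB] at m2
    obtain ⟨h1, h2', -, -, -, -⟩ := trig
    obtain ⟨g1, g2, -, -, -, -⟩ := trigm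
    have hq : Real.sqrt 3 ^ 2 = 3 := Real.sq_sqrt (by norm_num)
    obtain ⟨A', hA'⟩ : ∃ A' : ℂ, A' = ((1 + p.2.1 : ℝ) : ℂ) * zh p.1 (sp p) := ⟨_, rfl⟩
    obtain ⟨B', hB'⟩ : ∃ B' : ℂ, B' = ((1 + p.2.2 : ℝ) : ℂ) * zh p.1 (sm p) := ⟨_, rfl⟩
    have eA : A' = AS p + (α p : ℂ) * (Complex.I * ee (Real.pi / 3)) + RA := by
      rw [hRA, hA']
      unfold AS
      ring
    have eB : B' = BS p + (β p : ℂ) * (Complex.I * ee (-(Real.pi / 3))) + RB := by
      rw [hRB, hB']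
      unfold BS
      ring
    have hcc : cc sp p = A'.re := by rw [hA']; rfl
    rw [← hA', ← hB'] at heq
    have er := congrArg Complex.re heq
    have ei := congrArg Complex.im heq
    simp only [Complex.sub_re, Complex.sub_im, Complex.mul_re, Complex.mul_im, Complex.ofReal_re,
      Complex.ofReal_im, Complex.I_re, Complex.I_im, mul_zero, zero_mul, mul_one, sub_zero,
      add_zero] at er ei
    have eAr : A'.re = (AS p).re - α p * (Real.sqrt 3 / 2) + RA.re := by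
      rw [eA]
      simp only [Complex.add_re, Complex.mul_re, Complex.mul_im, Complex.ofReal_re,
        Complex.ofReal_im, Complex.I_re, Complex.I_im, ee_re, ee_im, h1, h2']
      ring
    have eAi : A'.im = (AS p).im + α p * (1 / 2) + RA.im := by
      rw [eA]
      simp only [Complex.add_im, Complex.mul_re, Complex.mul_im, Complex.ofReal_re,
        Complex.ofReal_im, Complex.I_re, Complex.I_im, ee_re, ee_im, h1, h2']
      ring
    have eBr : B'.re = (BS p).re + β p * (Real.sqrt 3 / 2) + RB.re := by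
      rw [eB]
      simp only [Complex.add_re, Complex.mul_re, Complex.mul_im, Complex.ofReal_re,
        Complex.ofReal_im, Complex.I_re, Complex.I_im, ee_re, ee_im, g1, g2]
      ring
    have eBi : B'.im = (BS p).im + β p * (1 / 2) + RB.im := by
      rw [eB]
      simp only [Complex.add_im, Complex.mul_re, Complex.mul_im, Complex.ofReal_re,
        Complex.ofReal_im, Complex.I_re, Complex.I_im, ee_re, ee_im, g1, g2]
      ring
    have key : cc sp p - (((AS p).re + (BS p).re) / 2 +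
        Real.sqrt 3 / 2 * ((AS p).im - (BS p).im - Real.sqrt 3)) =
        (RA.re + RB.re) / 2 + Real.sqrt 3 / 2 * (RA.im - RB.im) := by
      rw [hcc]
      have e1 : (AS p).re = A'.re + α p * (Real.sqrt 3 / 2) - RA.re := by linarith
      have e2 : (AS p).im = A'.im - α p * (1 / 2) - RA.im := by linarith
      have e3 : (BS p).re = B'.re - β p * (Real.sqrt 3 / 2) - RB.re := by linarith
      have e4 : (BS p).im = B'.im - β p * (1 / 2) - RB.im := by linarith
      rw [e1, e2, e3, e4]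
      have e5 : B'.re = A'.re := by linarith
      have e6 : A'.im - B'.im = Real.sqrt 3 := by linarith
      rw [e5]
      linear_combination (-(Real.sqrt 3) / 2) * e6
    rw [key]
    have q2 : Real.sqrt 3 ≤ 2 := by
      rw [show (2 : ℝ) = Real.sqrt 4 by
        rw [show (4 : ℝ) = 2 ^ 2 by norm_num]
        exact (Real.sqrt_sq (by norm_num)).symm]
      exact Real.sqrt_le_sqrt (by norm_num)
    have q0 : 0 ≤ Real.sqrt 3 := Real.sqrt_nonneg _
    have r1 := (Complex.abs_re_le_norm RA).trans m1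
    have r2 := (Complex.abs_im_le_norm RA).trans m1
    have r3 := (Complex.abs_re_le_norm RB).trans m2
    have r4 := (Complex.abs_im_le_norm RB).trans m2
    have s1 : |(RA.re + RB.re) / 2| ≤ (|RA.re| + |RB.re|) / 2 := by
      rw [abs_div, abs_two]
      linarith [abs_add_le RA.re RB.re]
    have s2 : |Real.sqrt 3 / 2 * (RA.im - RB.im)| ≤ |RA.im| + |RB.im| := by
      rw [abs_mul, abs_of_nonneg (by linarith : (0 : ℝ) ≤ Real.sqrt 3 / 2)]
      have t1 : |RA.im - RB.im| ≤ |RA.im| + |RB.im| := abs_sub _ _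
      have t2 := abs_nonneg (RA.im - RB.im)
      nlinarith
    refine (abs_add_le _ _).trans ?_
    have t3 := abs_nonneg RA.re
    have t4 := abs_nonneg RB.re
    linarith
  have o3 : Ob 3 (fun p => 2 * ((8 * ‖p‖ + (|lsp p| + |α p|)) * |α p| +
      (8 * ‖p‖ + (|lsm p| + |β p|)) * |β p|)) := by
    have u1 : Ob 1 (fun p => 8 * ‖p‖ + (|lsp p| + |α p|)) :=
      (Ob.norm.cmul 8).add (ob_lsp.abs.add (oα.abs.mono (by norm_num)))
    have u2 : Ob 1 (fun p => 8 * ‖p‖ + (|lsm p| + |β p|)) :=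
      (Ob.norm.cmul 8).add (ob_lsm.abs.add (oβ.abs.mono (by norm_num)))
    exact ((u1.mul oα.abs).add (u2.mul oβ.abs)).cmul 2
  have o4 : Ob 3 (fun p => cc sp p - (((AS p).re + (BS p).re) / 2 +
      Real.sqrt 3 / 2 * ((AS p).im - (BS p).im - Real.sqrt 3))) := by
    refine Ob.of_le o3 1 ?_
    filter_upwards [h3] with p hp
    rw [one_mul]
    exact hp.trans (le_abs_self _)
  have o5 : Ob 3 (fun p => cc sp p - tcc p) := by
    refine (o4.add st4).congr_left fun p => ?_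
    ring
  -- the constants
  obtain ⟨C1, hC1, e1⟩ := oα.exists_pos
  obtain ⟨C2, hC2, e2⟩ := oβ.exists_pos
  obtain ⟨C3, hC3, e3⟩ := o5.exists_pos
  have e := (e1.bound.and (e2.bound.and e3.bound)).and ev_ball
  obtain ⟨ρ, hρ, hball⟩ := Metric.eventually_nhds_iff_ball.1 e
  refine ⟨C1 + C2 + C3, min ρ r, by positivity, lt_min hρ hC.pos, min_le_right _ _, ?_⟩
  intro p hp
  obtain ⟨⟨b1, b2, b3⟩, -⟩ := hball p (ball_subset_ball (min_le_left _ _) hp)
  rw [norm_pow, norm_norm, Real.norm_eq_abs] at b1 b2 b3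
  have z2 : 0 ≤ ‖p‖ ^ 2 := by positivity
  have z3 : 0 ≤ ‖p‖ ^ 3 := by positivity
  refine ⟨?_, ?_, ?_⟩
  · have : α p = sp p - (Real.pi / 3 + lsp p) := by rw [hα]
    rw [← this]
    nlinarith
  · have : β p = sm p - (-(Real.pi / 3) + lsm p) := by rw [hβ]
    rw [← this]
    nlinarith
  · nlinarith

end Pool.Agent.Helper42.LT
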